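import Mathlib
import Pool.Agent.H759R2.Kad.Props6

open scoped ComplexOrder InnerProductSpace ComplexConjugate
open Finset

noncomputable section

namespace H759R2.Kad

universe u v

theorem prove6_wst (h1 : C_chain.{u}) (h2 : C_sep.{u}) (h3 : C_polar.{u}) (h4 : C_cen.{u})
    (h5 : C_spec.{u}) : C_wst.{u} := by
  intro H _ _ _ M
  exact ⟨fun C hC => (h1 H M C hC).1, h3 H M, h4 H M, h5 H M, h2 H M⟩

end H759R2.Kad
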